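import Pool.Agent.P8H30.LG.Stm

/-!
# Project LG, package WRO: the complete elliptic integrals in the Frobenius basis at `0`
-/

set_option autoImplicit false

open Set Filter Topology

namespace Pool.Agent.P8H16.LG

open Pool.Agent.P8H30.LG
open Pool.Agent.TH818.AR (KK EE T_ode ode)

/-- a pair `(a, θ a)` of functions on `(0,1)` which solves the differential equation -/
def Sol (a b : ℝ → ℝ) : Prop := ∀ x : ℝ, 0 < x → x < 1 →
  HasDerivAt a (b x / x) x ∧ HasDerivAt b ((x * b x + x / 4 * a x) / ((1 - x) * x)) x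

lemma wron {a b c d : ℝ → ℝ} (h1 : Sol a b) (h2 : Sol c d) :
    ∃ C : ℝ, ∀ x : ℝ, 0 < x → x < 1 → (1 - x) * (a x * d x - b x * c x) = C := by
  have hd : ∀ x : ℝ, 0 < x → x < 1 → HasDerivAt (fun y : ℝ => (1 - y) * (a y * d y - b y * c y)) 0 x := by
    intro x hx0 hx1
    have hs : HasDerivAt (fun s : ℝ => 1 - s) (-1) x := by
      simpa using (hasDerivAt_id x).const_sub 1
    have hh := hs.mul (((h1 x hx0 hx1).1.mul (h2 x hx0 hx1).2).sub ((h1 x hx0 hx1).2.mul (h2 x hx0 hx1).1))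
    refine hh.congr_deriv ?_
    have e1 : (1 - x) ≠ 0 := by linarith
    have e0 : x ≠ 0 := hx0.ne'
    simp only [Pi.mul_apply, Pi.sub_apply]
    field_simp
    ring
  refine ⟨(1 - 1 / 2) * (a (1 / 2) * d (1 / 2) - b (1 / 2) * c (1 / 2)), fun x hx0 hx1 => ?_⟩
  refine isOpen_Ioo.is_const_of_deriv_eq_zero (s := Ioo (0 : ℝ) 1)
    (f := fun y : ℝ => (1 - y) * (a y * d y - b y * c y)) isPreconnected_Ioo ?_ ?_ ⟨hx0, hx1⟩
    (by norm_num)
  · intro s hs
    exact (hd s hs.1 hs.2).differentiableAt.differentiableWithinAt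
  · intro s hs
    exact (hd s hs.1 hs.2).deriv

/-- the second solution -/
noncomputable def y (x : ℝ) : ℝ := g x + Real.log x * f x
/-- its logarithmic derivative -/
noncomputable def y1 (x : ℝ) : ℝ := f x + p x + Real.log x * h x
/-- `θ K` -/
noncomputable def K1 (x : ℝ) : ℝ := (EE x - (1 - x) * KK x) / (2 * (1 - x))
/-- the complementary integral -/
noncomputable def K' (x : ℝ) : ℝ := KK (1 - x)
/-- `θ K'` -/
noncomputable def K1' (x : ℝ) : ℝ := -(EE (1 - x) - x * KK (1 - x)) / (2 * (1 - x))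

lemma sol_f (ho : ODE) : Sol f h := fun x h0 h1 => ⟨(ho x h0 h1).1, (ho x h0 h1).2.1⟩

lemma sol_y (ho : ODE) : Sol y y1 := by
  intro x h0 h1
  obtain ⟨hf, hh, hg, hp⟩ := ho x h0 h1
  have hl := Real.hasDerivAt_log h0.ne'
  have e1 : (1 - x) ≠ 0 := by linarith
  have e0 : x ≠ 0 := h0.ne'
  constructor
  · refine (hg.add (hl.mul hf)).congr_deriv ?_
    simp only [y1]
    field_simp
    ring
  · refine ((hf.add hp).add (hl.mul hh)).congr_deriv ?_
    simp only [y1, y]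
    field_simp
    ring

lemma sol_K : Sol KK K1 := by
  intro x h0 h1
  obtain ⟨hK, hE⟩ := ode x h1 h0.ne'
  have e1 : (1 - x) ≠ 0 := by linarith
  have e0 : x ≠ 0 := h0.ne'
  have hs : HasDerivAt (fun s : ℝ => 1 - s) (-1) x := by
    simpa using (hasDerivAt_id x).const_sub 1
  constructor
  · refine hK.congr_deriv ?_
    simp only [K1]
    field_simp
  · have := (hE.sub (hs.mul hK)).div (hs.const_mul 2) (by positivity : (2 * (1 - x)) ≠ 0)
    refine this.congr_deriv ?_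
    simp only [K1, Pi.mul_apply, Pi.sub_apply]
    field_simp
    ring

lemma sol_K' : Sol K' K1' := by
  intro x h0 h1
  have hK := Pool.Agent.TH818.AR.SingAux.KK_deriv1 ode x h0 h1
  have hE := Pool.Agent.TH818.AR.SingAux.EE_deriv1 ode x h0 h1
  have e1 : (1 - x) ≠ 0 := by linarith
  have e0 : x ≠ 0 := h0.ne'
  have hs : HasDerivAt (fun s : ℝ => 1 - s) (-1) x := by
    simpa using (hasDerivAt_id x).const_sub 1
  constructor
  · refine hK.congr_deriv ?_
    simp only [K1']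
    field_simp
  · have := (hE.sub ((hasDerivAt_id x).mul hK)).neg.div (hs.const_mul 2) (by positivity : (2 * (1 - x)) ≠ 0)
    refine this.congr_deriv ?_
    simp only [K1', K', Pi.mul_apply, Pi.sub_apply, Pi.neg_apply, id]
    field_simp
    ring

lemma lim_xlog : Tendsto (fun x : ℝ => Real.log x * x) (𝓝[>] 0) (𝓝 0) := by
  simpa only [Real.rpow_one] using tendsto_log_mul_rpow_nhdsGT_zero zero_lt_one

lemma lim_x : Tendsto (fun x : ℝ => x) (𝓝[>] 0) (𝓝 0) := tendsto_id.mono_left nhdsWithin_le_nhds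

lemma lim_small {w : ℝ → ℝ} {B x₀ : ℝ} (hx₀ : 0 < x₀) (hw : ∀ x : ℝ, 0 < x → x ≤ x₀ → |w x| ≤ B * x) :
    Tendsto w (𝓝[>] 0) (𝓝 0) ∧ Tendsto (fun x : ℝ => Real.log x * w x) (𝓝[>] 0) (𝓝 0) := by
  have hev : ∀ᶠ x : ℝ in 𝓝[>] 0, 0 < x ∧ x ≤ x₀ := by
    filter_upwards [self_mem_nhdsWithin, Ioc_mem_nhdsGT hx₀] with x h1 h2 using ⟨h1, h2.2⟩
  constructor
  · refine squeeze_zero_norm' (a := fun x : ℝ => B * x) ?_ (by simpa using lim_x.const_mul B)
    filter_upwards [hev] with x hx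
    rw [Real.norm_eq_abs]
    exact hw x hx.1 hx.2
  · refine squeeze_zero_norm' (a := fun x : ℝ => B * |Real.log x * x|) ?_
      (by simpa using (lim_xlog.abs).const_mul B)
    filter_upwards [hev] with x hx
    rw [Real.norm_eq_abs, abs_mul, abs_mul, abs_of_pos hx.1]
    calc |Real.log x| * |w x| ≤ |Real.log x| * (B * x) :=
          mul_le_mul_of_nonneg_left (hw x hx.1 hx.2) (abs_nonneg _)
      _ = B * (|Real.log x| * x) := by ring

lemma const_eq {w : ℝ → ℝ} {C L : ℝ} (hw : ∀ x : ℝ, 0 < x → x < 1 → w x = C)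
    (hl : Tendsto w (𝓝[>] 0) (𝓝 L)) : C = L := by
  have h2 : Tendsto w (𝓝[>] 0) (𝓝 C) := by
    refine tendsto_const_nhds.congr' ?_
    filter_upwards [Ioo_mem_nhdsGT (zero_lt_one : (0 : ℝ) < 1)] with x hx
    exact (hw x hx.1 hx.2).symm
  exact tendsto_nhds_unique h2 hl

theorem wro : S_WRO := by
  rintro ho ⟨B, hB⟩ ⟨hleg, B', x₀, hx₀, hx₀1, hB'⟩
  obtain ⟨lf0, llf⟩ := lim_small (w := fun x => f x - 1) (by norm_num : (0 : ℝ) < 1 / 2) fun x h0 h1 => (hB x h0 h1).1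
  obtain ⟨lh, llh⟩ := lim_small (w := h) (by norm_num : (0 : ℝ) < 1 / 2) fun x h0 h1 => (hB x h0 h1).2.1
  obtain ⟨lg, llg⟩ := lim_small (w := g) (by norm_num : (0 : ℝ) < 1 / 2) fun x h0 h1 => (hB x h0 h1).2.2.1
  obtain ⟨lp, llp⟩ := lim_small (w := p) (by norm_num : (0 : ℝ) < 1 / 2) fun x h0 h1 => (hB x h0 h1).2.2.2
  obtain ⟨lK0, -⟩ := lim_small (w := fun x => KK x - Real.pi / 2) hx₀ fun x h0 h1 => (hB' x h0 h1).1
  obtain ⟨lN, llN⟩ := lim_small (w := fun x => EE x - (1 - x) * KK x) hx₀ fun x h0 h1 => (hB' x h0 h1).2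
  have lf : Tendsto f (𝓝[>] 0) (𝓝 1) := by simpa using lf0.add_const 1
  have lK : Tendsto KK (𝓝[>] 0) (𝓝 (Real.pi / 2)) := by simpa using lK0.add_const (Real.pi / 2)
  have l1 : Tendsto (fun x : ℝ => 1 - x) (𝓝[>] 0) (𝓝 1) := by simpa using lim_x.const_sub 1
  obtain ⟨c1, h1⟩ := wron (sol_f ho) (sol_y ho)
  obtain ⟨c2, h2⟩ := wron (sol_K) (sol_y ho)
  obtain ⟨c3, h3⟩ := wron (sol_f ho) sol_K
  obtain ⟨A, h4⟩ := wron sol_K' (sol_y ho)
  obtain ⟨b, h5⟩ := wron (sol_f ho) sol_K'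
  have e1 : c1 = 1 := by
    refine const_eq h1 ?_
    have : Tendsto (fun x : ℝ => (1 - x) * (f x * f x + f x * p x - h x * g x)) (𝓝[>] 0)
        (𝓝 (1 * (1 * 1 + 1 * 0 - 0 * 0))) := l1.mul (((lf.mul lf).add (lf.mul lp)).sub (lh.mul lg))
    rw [show (1 * (1 * 1 + 1 * 0 - 0 * 0) : ℝ) = 1 by norm_num] at this
    refine this.congr fun x => ?_
    simp only [y, y1]
    ring
  have e2 : c2 = Real.pi / 2 := by
    refine const_eq h2 ?_
    have : Tendsto (fun x : ℝ => (1 - x) * (KK x * (f x + p x + Real.log x * h x)) -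
        1 / 2 * ((EE x - (1 - x) * KK x) * g x + (Real.log x * (EE x - (1 - x) * KK x)) * f x)) (𝓝[>] 0)
        (𝓝 (1 * (Real.pi / 2 * (1 + 0 + 0)) - 1 / 2 * (0 * 0 + 0 * 1))) :=
      (l1.mul (lK.mul ((lf.add lp).add llh))).sub (((lN.mul lg).add (llN.mul lf)).const_mul (1 / 2))
    rw [show (1 * (Real.pi / 2 * (1 + 0 + 0)) - 1 / 2 * (0 * 0 + 0 * 1) : ℝ) = Real.pi / 2 by ring] at this
    refine this.congr' ?_
    filter_upwards [Ioo_mem_nhdsGT (zero_lt_one : (0 : ℝ) < 1)] with x hx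
    have : (1 - x) ≠ 0 := by linarith [hx.2]
    simp only [y, y1, K1]
    field_simp
  have e3 : c3 = 0 := by
    refine const_eq h3 ?_
    have : Tendsto (fun x : ℝ => 1 / 2 * (f x * (EE x - (1 - x) * KK x)) - (1 - x) * (h x * KK x)) (𝓝[>] 0)
        (𝓝 (1 / 2 * (1 * 0) - 1 * (0 * (Real.pi / 2)))) :=
      ((lf.mul lN).const_mul (1 / 2)).sub (l1.mul (lh.mul lK))
    rw [show (1 / 2 * (1 * 0) - 1 * (0 * (Real.pi / 2)) : ℝ) = 0 by ring] at this
    refine this.congr' ?_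
    filter_upwards [Ioo_mem_nhdsGT (zero_lt_one : (0 : ℝ) < 1)] with x hx
    have : (1 - x) ≠ 0 := by linarith [hx.2]
    simp only [K1]
    field_simp
  subst e1 e2 e3
  -- Cramer
  have hK : ∀ x : ℝ, 0 < x → x < 1 → KK x = Real.pi / 2 * f x := fun x a0 a1 => by
    linear_combination (-KK x) * h1 x a0 a1 + f x * h2 x a0 a1 + y x * h3 x a0 a1
  have hK1 : ∀ x : ℝ, 0 < x → x < 1 → K1 x = Real.pi / 2 * h x := fun x a0 a1 => by
    linear_combination (-K1 x) * h1 x a0 a1 + h x * h2 x a0 a1 + y1 x * h3 x a0 a1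
  have hK' : ∀ x : ℝ, 0 < x → x < 1 → K' x = A * f x + b * y x := fun x a0 a1 => by
    linear_combination (-K' x) * h1 x a0 a1 + f x * h4 x a0 a1 + y x * h5 x a0 a1
  have hK1' : ∀ x : ℝ, 0 < x → x < 1 → K1' x = A * h x + b * y1 x := fun x a0 a1 => by
    linear_combination (-K1' x) * h1 x a0 a1 + h x * h4 x a0 a1 + y1 x * h5 x a0 a1
  have hb : b = -(1 / 2) := by
    have hx0 : (0 : ℝ) < 1 / 2 := by norm_num
    have hx1 : (1 / 2 : ℝ) < 1 := by norm_num
    have q1 := hK _ hx0 hx1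
    have q2 := hK1 _ hx0 hx1
    have q5 := h5 _ hx0 hx1
    have ql := hleg _ hx0 hx1
    have r1 : (1 - 1 / 2 : ℝ) * (KK (1 / 2) * K1' (1 / 2) - K1 (1 / 2) * K' (1 / 2)) = -(Real.pi / 4) := by
      have : (1 - 1 / 2 : ℝ) ≠ 0 := by norm_num
      simp only [K1, K1', K']
      linear_combination (-1 / 2) * ql
    rw [q1, q2] at r1
    have hpi := Real.pi_pos
    have : Real.pi / 2 * b = Real.pi / 2 * (-(1 / 2)) := by
      rw [← q5]
      linear_combination r1
    exact mul_left_cancel₀ (by positivity) this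
  subst hb
  refine ⟨A, fun x a0 a1 => ⟨hK x a0 a1, ?_, ?_, ?_⟩⟩
  · have := hK1 x a0 a1
    have e : (1 - x) ≠ 0 := by linarith
    simp only [K1] at this
    rw [div_eq_iff (by positivity)] at this
    linear_combination this
  · have := hK' x a0 a1
    simp only [K', y] at this
    linear_combination this
  · have := hK1' x a0 a1
    have e : (1 - x) ≠ 0 := by linarith
    simp only [K1', y1] at this
    rw [div_eq_iff (by positivity)] at this
    linear_combination -this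

end Pool.Agent.P8H16.LG
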